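import Pool.Agent.Q218.HB.Stm

set_option autoImplicit false

/-!
# Project HB (helper218), job SEC: second resolvent identity
-/

namespace Pool.Agent.Q285.HB

open Pool.Agent.Q218.HB Matrix

theorem sec (hinv : S_INV) : S_SEC := by
  intro Λ _ _ h V z hs hz a b
  have h1 := (hinv Λ h V z hs hz).1
  have h2 := (hinv Λ h (fun _ => 0) z hs hz).2.1
  have hd : Hm h V - z • (1 : Matrix Λ Λ ℂ) =
      (Hm h (fun _ => 0) - z • (1 : Matrix Λ Λ ℂ)) + Matrix.diagonal (fun x => (V x : ℂ)) := by
    ext x y
    by_cases hxy : x = y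
    · subst hxy
      simp [Hm]
      ring
    · simp [Hm, hxy]
  have key : G h (fun _ => 0) z =
      G h V z + G h (fun _ => 0) z * Matrix.diagonal (fun x => (V x : ℂ)) * G h V z := by
    calc G h (fun _ => 0) z = G h (fun _ => 0) z *
          ((Hm h V - z • (1 : Matrix Λ Λ ℂ)) * G h V z) := by rw [h1, mul_one]
      _ = G h (fun _ => 0) z * ((Hm h (fun _ => 0) - z • (1 : Matrix Λ Λ ℂ)) +
            Matrix.diagonal (fun x => (V x : ℂ))) * G h V z := by rw [← hd, mul_assoc]
      _ = (G h (fun _ => 0) z * (Hm h (fun _ => 0) - z • (1 : Matrix Λ Λ ℂ))) * G h V z +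
            G h (fun _ => 0) z * Matrix.diagonal (fun x => (V x : ℂ)) * G h V z := by
          rw [mul_add, add_mul]
      _ = _ := by rw [h2, one_mul]
  have hk := congrFun (congrFun key a) b
  rw [Matrix.add_apply, Matrix.mul_apply] at hk
  simp only [Matrix.mul_diagonal] at hk
  rw [hk]
  ring

end Pool.Agent.Q285.HB
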